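import Pool.Agent.Helper912_CZ.CanonDefs
import Pool.Agent.Helper912_CZ.Chow

/-!
# The number of canonical classes
-/

open CategoryTheory AlgebraicGeometry Pool.Agent.H914

namespace Pool.Agent.Results.MP_59fd2e_ag.CanonicalClasses

open Pool.Agent.Helper912

variable (C : ChowTheory) {X : VarC} {n : ℕ}

lemma mul_eq (hX : X.dim = 2 * n) {z y : Pt X} (hz : ConstSub X n z) (hy : y ∈ ClosureOf z)
    (hy' : ClosedPt y) {b : C.CH X} (hb : b ∈ C.gr X n) :
    C.cl X z * b = C.deg X (C.cl X z * b) • C.cl X y := by
  apply C.eq_deg_smul_of_constCycle hz.2 hy hy'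
  have h1 : C.cl X z ∈ C.supp X n (ClosureOf z) := C.cl_mem_supp (subset_closure rfl) hz.1
  have h2 := C.mulSupp X n n (ClosureOf z) Set.univ _ _ isClosed_closure isClosed_univ h1 hb
  rwa [Set.inter_univ, ← two_mul, ← hX] at h2

/-- Let `X` be a smooth proper variety of dimension `2n` such that the classes of any `r + 1`
constant cycle subvarieties of dimension `n` are numerically dependent. Then the points of the
constant cycle subvarieties (for example the rationally connected ones) of dimension `n` with
nonzero self-intersection have at most `r` different classes in the Chow group of zero-cycles. -/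
theorem result (C : ChowTheory) (X : VarC) (n : ℕ) (hX : X.dim = 2 * n) (r : ℕ)
    (hr : C.NumDependent X n (r + 1)) : {o | C.Canonical X n o}.encard ≤ r := by
  classical
  by_contra hcon
  rw [not_le] at hcon
  have h1 : ((r + 1 : ℕ) : ℕ∞) ≤ {o | C.Canonical X n o}.encard := by
    push_cast
    exact Order.add_one_le_of_lt hcon
  obtain ⟨t, ht, ht'⟩ := Set.exists_subset_encard_eq h1
  have hfin : t.Finite := Set.finite_of_encard_eq_coe ht'
  have hcard : Nat.card t = r + 1 := by
    rw [Nat.card_coe_set_eq, Set.ncard, ht']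
    rfl
  have : Finite t := hfin
  let e := Finite.equivFinOfCardEq hcard
  have ho : ∀ i : Fin (r + 1), C.Canonical X n (e.symm i : C.CH X) := fun i => ht (e.symm i).2
  choose z y hz hzz hy hy' hcl using ho
  obtain ⟨a, ha, hab⟩ := hr z hz
  have hmem : ∀ i, C.cl X (z i) ∈ C.gr X n := fun i => C.cl_mem_supp trivial (hz i).1
  have horth : ∀ i j, i ≠ j → C.deg X (C.cl X (z i) * C.cl X (z j)) = 0 := by
    intro i j hij
    by_contra h0
    have h2 := mul_eq C hX (hz i) (hy i) (hy' i) (hmem j)
    have h3 := mul_eq C hX (hz j) (hy j) (hy' j) (hmem i)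
    rw [mul_comm (C.cl X (z j))] at h3
    rw [h3] at h2
    have h4 : C.deg X (C.cl X (z i) * C.cl X (z j)) • C.cl X (y j) =
        C.deg X (C.cl X (z i) * C.cl X (z j)) • C.cl X (y i) := by
      rw [← h3] at h2
      rw [← h3]
      exact h2
    have h5 : C.cl X (y j) = C.cl X (y i) := smul_right_injective _ h0 h4
    rw [hcl, hcl] at h5
    exact hij (e.symm.injective (Subtype.ext h5)).symm
  apply ha
  funext i
  have h6 := hab _ (hmem i)
  rw [Finset.sum_mul, map_sum, Finset.sum_eq_single i] at h6
  · rw [smul_mul_assoc, map_smul, smul_eq_mul] at h6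
    exact (mul_eq_zero.mp h6).resolve_right (hzz i)
  · intro j _ hj
    rw [smul_mul_assoc, map_smul, horth j i hj, smul_zero]
  · intro h
    exact absurd (Finset.mem_univ i) h

end Pool.Agent.Results.MP_59fd2e_ag.CanonicalClasses
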