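import Pool.Agent.Helper912_CZ.Fib

/-!
# Chern class zero-cycles on varieties with Lagrangian fibrations
-/

open CategoryTheory AlgebraicGeometry Pool.Agent.H914

namespace Pool.Agent.Results.MP_59fd2e_ag.LagrangianFibration

open Pool.Agent.Helper912

/-- Let `X` be a smooth proper variety of dimension `2n = 2 (m + r)` and let `V` be a space of
divisor classes with a quadratic form. Let `L ∈ V` be the isotropic class of a fibration with
nodal degenerations, whose pieces over a linear subspace of codimension `t ≤ m` of the base
represent the monomials of codimension `2r` in the Chern classes, and suppose that every isotropic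
class of `V` not orthogonal to `L` gives such a fibration on some model of `X`. Let `Y` be a closed
constant cycle subset (for example a rationally connected one) which meets a closed constant cycle
subset `T` supporting the classes of the fibres of the first fibration (for example a special
fibre), and `y` a point of `Y`. Then all monomials `H^{2m} ∏ c_i(X)^{k_i}` of codimension `2n` with
`H ∈ V` are multiples of the class of `y`. -/
theorem result (C : ChowTheory) (X : VarC) (m r t : ℕ) (ht : t ≤ m) (hX : X.dim = 2 * (m + r))
    (c : ∀ i, NatClass C i) (V : DivSpace C X)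
    (Y : Set (Pt X)) (hYc : ClosedIn Y) (hY : ConstCycle X.str Y)
    (y : Pt X) (hy : y ∈ Y) (hy' : ClosedPt y)
    (T : Set (Pt X)) (hTc : ClosedIn T) (hT : ConstCycle X.str T) (hYT : (Y ∩ T).Nonempty)
    (L u : V.Elt) (hL : V.form L = 0) (hu : V.pair L u ≠ 0)
    (S : FibSystem C X m r t c V.V (V.cls L) T) (hu' : S.GenericFor (V.cls u))
    (hα : ∀ α : V.Elt, V.form α = 0 → V.pair L α ≠ 0 → S.GenericFor (V.cls α) →
      Fibred m r c V.V (V.cls L) (V.cls α))
    (H : V.Elt) (k : ℕ → ℕ) (hk : chernDeg X k = 2 * r) :
    C.IsMultiple (C.monomial (V.cls H) c (2 * m) k) y := by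
  have hJ : JacobsonSpace X.X := LocallyOfFiniteType.jacobsonSpace X.str
  have hc : IsClosed (Y ∩ T) := IsClosed.inter hYc hTc
  obtain ⟨z, ⟨hz1, hz2⟩, hz3⟩ := nonempty_inter_closedPoints hYT hc.isLocallyClosed
  have h1 := isMultiple_of_fibSystem ht hX c V hTc hT hz2 hz3 L u hL hu S hu' hα H k hk
  have h2 : C.cl X z = C.cl X y := C.cl_eq_of_ratEq hz3 hy' (hY z y hz1 hy hz3 hy')
  rw [ChowTheory.monomial, mul_comm]
  rw [ChowTheory.IsMultiple] at h1 ⊢
  rw [← h2]
  exact h1

end Pool.Agent.Results.MP_59fd2e_ag.LagrangianFibration
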