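import Pool.Agent.Helper912_CZ.Quot

/-!
# Chern class zero-cycles on varieties with a rationally connected finite quotient
-/

open CategoryTheory AlgebraicGeometry Pool.Agent.H914

namespace Pool.Agent.Results.MP_59fd2e_ag.RatConnQuotient

open Pool.Agent.Helper912

/-- Let the finite group `G` act on `X`, let `π : X → W` be a finite surjective morphism whose
fibres are the orbits of `G` (for example the quotient), and let `W` be rationally chain
connected. Let `Y` be a closed constant cycle subset of `X` (for example a rationally connected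
one) which meets its translates by generators of `G`. Then every monomial of codimension `dim X`
in a `G`-invariant divisor class `H` and natural classes `c_i` (for example the Chern classes of
`X`) is a multiple of the class of any closed point of `Y`. -/
theorem result (C : ChowTheory) (X : VarC) (G : Type) [Group G] [Finite G] (ρ : Action G X)
    (W : Scheme.{0}) (sW : OverC W) (π : X.X ⟶ W) (hq : IsQuotient ρ sW π)
    (hW : RatChainConnected sW Set.univ)
    (Y : Set (Pt X)) (hYc : ClosedIn Y) (hY : ConstCycle X.str Y)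
    (S : Set G) (hS : Subgroup.closure S = ⊤) (hYS : ∀ g ∈ S, ∃ z ∈ Y, onPt (act ρ g) z ∈ Y)
    (y : Pt X) (hy : y ∈ Y) (hy' : ClosedPt y) (c : ∀ i : ℕ, NatClass C i)
    (H : C.CH X) (hH : H ∈ C.gr X 1) (hHG : ∀ g : G, C.pull (act ρ g) H = H)
    (k₀ : ℕ) (k : ℕ → ℕ) (hk : k₀ + chernDeg X k = X.dim) :
    C.IsMultiple (C.monomial H c k₀ k) y := by
  refine eq_deg_smul_of_invariant C ρ sW π hq hW hy'
    (cl_invariant C ρ hYc hY S hS hYS hy hy') ?_ ?_
  · have h1 : H ^ k₀ * ∏ i ∈ Finset.Icc 1 X.dim, (c i).val X ^ k i ∈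
        C.gr X (k₀ * 1 + ∑ i ∈ Finset.Icc 1 X.dim, k i * i) := by
      refine C.mul_mem_gr (C.pow_mem_gr hH k₀) (C.prod_mem_gr _ _ _ fun i _ => ?_)
      exact C.pow_mem_gr ((c i).mem X) (k i)
    have h2 : k₀ * 1 + ∑ i ∈ Finset.Icc 1 X.dim, k i * i = X.dim := by
      rw [mul_one]
      simpa only [chernDeg, mul_comm] using hk
    rwa [h2] at h1
  · intro g
    have h1 : ∀ a, C.push (ρ g).hom a = C.pull (ρ g).inv a := C.push_iso (ρ g)
    have h2 : C.pull (ρ g).inv H = H := by
      rw [← h1]
      conv_lhs => rw [← hHG g]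
      exact C.push_iso_pull (ρ g) H
    rw [h1, ChowTheory.monomial, ChowTheory.chernProd, map_mul, map_pow, map_prod, h2]
    congr 1
    apply Finset.prod_congr rfl
    intro i _
    rw [map_pow]
    congr 1
    exact (c i).iso (ρ g).symm

end Pool.Agent.Results.MP_59fd2e_ag.RatConnQuotient
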