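import Pool.Agent.Helper912_CZ.NodalFibre

/-!
# The second Chern class on varieties with a Lagrangian fibration
-/

open CategoryTheory AlgebraicGeometry Pool.Agent.H914

namespace Pool.Agent.Results.MP_59fd2e_ag.SecondChernClass

open Pool.Agent.Helper912

/-- Let `X` be a smooth proper variety of dimension `2n` with `c₁(X) = 0`, and let `V` be a space
of divisor classes with a quadratic form. Let `L ∈ V` be the isotropic class of a fibration over an
`n`-dimensional variety, whose fibres over the discriminant points of a general line are nodal,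
and suppose that the isotropic classes of `V` not orthogonal to `L` are, on some models of `X`
(which may depend on the class), classes of fibrations over `n`-dimensional varieties. Let `Y` be
a closed constant cycle subset (for example a rationally connected one) which meets a constant
cycle fibre, and `y` a point of `Y`. Then `H^{2n}` and `c₂(X) H^{2n-2}` are multiples of the class
of `y` for all `H ∈ V`. -/
theorem result (C : ChowTheory) (X : VarC) (n : ℕ) (hX : X.dim = 2 * n)
    (c : ∀ i, NatClass C i) (hc : (c 1).val X = 0) (V : DivSpace C X)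
    (Y : Set (Pt X)) (hYc : ClosedIn Y) (hY : ConstCycle X.str Y)
    (y : Pt X) (hy : y ∈ Y) (hy' : ClosedPt y)
    (L u : V.Elt) (hL : V.form L = 0) (hu : V.pair L u ≠ 0)
    (S : NodalFibration C X n c V.V (V.cls L) Y) (hu' : S.GenericFor (V.cls u))
    (hα : ∀ α : V.Elt, V.form α = 0 → V.pair L α ≠ 0 → S.GenericFor (V.cls α) →
      LightFibred n c (V.cls α))
    (H : V.Elt) (k₀ : ℕ) (k : ℕ → ℕ) (hk : k₀ + chernDeg X k = X.dim)
    (hk₀ : 2 * n ≤ k₀ + 2) :
    C.IsMultiple (C.monomial (V.cls H) c k₀ k) y := by
  have h012 : chernDeg X k = 0 ∨ chernDeg X k = 1 ∨ chernDeg X k = 2 := by omega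
  rw [C.isMultiple_iff hy', ChowTheory.monomial]
  rcases h012 with h | h | h
  · have hk1 : k₀ = 2 * n := by omega
    rw [chernProd_zero k h, mul_one, hk1, ← one_mul (V.cls H ^ (2 * n))]
    refine mem_of_isotropic V L u hL hu (C.line y) n 1 S.k S.vanish hu' ?_ ?_ H
    · intro D _ a b hab ha
      rcases Nat.lt_or_ge n b with hb | hb
      · rw [S.toBaseMap.pow_eq_zero hb, mul_zero, zero_mul]
        exact zero_mem _
      · have ha1 : a = n := by omega
        have hb1 : b = n := by omega
        rw [ha1, hb1, one_mul]
        exact S.pow_mul_pow_mem hX hYc hY hy hy' (V.le D.2)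
    · intro α h1 h2 h3 i j hij hi
      rw [pow_eq_zero_of_lightFibred (hα α h1 h2 h3) hi, mul_zero, zero_mul]
      exact zero_mem _
  · rw [chernProd_one hc k h, mul_zero]
    exact zero_mem _
  · rcases chernProd_two hc k h with h0 | h0
    · rw [h0, mul_zero]
      exact zero_mem _
    · have hk1 : k₀ = 2 * (n - 1) := by omega
      rw [h0, mul_comm, hk1]
      refine mem_of_isotropic V L u hL hu (C.line y) (n - 1) _ S.k S.vanish hu' ?_ ?_ H
      · intro D hD a b hab ha
        rcases Nat.lt_or_ge (n - 1) b with hb | hb
        · obtain ⟨j, hj⟩ : ∃ j, b = n + j := ⟨b - n, by omega⟩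
          rw [hj, pow_add, ← mul_assoc, S.toBaseMap.chern_mul_pow, zero_mul, zero_mul]
          exact zero_mem _
        · have ha1 : a = n - 1 := by omega
          have hb1 : b = n - 1 := by omega
          rw [ha1, hb1]
          exact S.chern_mul_mem hX hYc hY hy hy' (V.le D.2) D.2 hD
      · intro α h1 h2 h3 i j hij hi
        obtain ⟨l, hl⟩ : ∃ l, i = n + l := ⟨i - n, by omega⟩
        rw [hl, pow_add, ← mul_assoc, mul_pow_eq_zero_of_lightFibred (hα α h1 h2 h3), zero_mul,
          zero_mul]
        exact zero_mem _

end Pool.Agent.Results.MP_59fd2e_ag.SecondChernClass
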